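import Mathlib

namespace Pool.Agent.Results.MP_cb1e0a_co.Torus
open Set
open scoped ENNReal

/-- any two points are joined by a constant-speed geodesic. -/
def IsGeodesicSpace (X : Type) [MetricSpace X] : Prop :=
  ∀ x y : X, ∃ γ : ℝ → X, γ 0 = x ∧ γ 1 = y ∧
    ∀ s ∈ Icc (0 : ℝ) 1, ∀ t ∈ Icc (0 : ℝ) 1, dist (γ s) (γ t) = |s - t| * dist x y

/-- the robber has a winning strategy against k cops. -/
def RobberWins (X : Type) [MetricSpace X] (k : ℕ) : Prop :=
  ∃ (c0 : Fin k → X) (τ : ℕ → ℝ) (σ : ℕ → (ℕ → Fin k → X) → X),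
    (∀ n, 0 < τ n) ∧ ¬ Summable τ ∧
    (∀ n c c', (∀ m < n, c m = c' m) → σ n c = σ n c') ∧
    ∀ c : ℕ → Fin k → X, c 0 = c0 → (∀ n i, dist (c n i) (c (n + 1) i) ≤ τ (n + 1)) →
      (∀ n, dist (σ n c) (σ (n + 1) c) ≤ τ (n + 1)) ∧
      ∃ δ : ℝ, 0 < δ ∧ ∀ n i, δ ≤ dist (σ n c) (c n i)

lemma lift {q : ℝ} (hq : 0 < q) (z : AddCircle q) :
    ∃ v : ℝ, (v : AddCircle q) = z ∧ |v| ≤ q / 2 ∧ ‖z‖ = |v| := by
  induction z using QuotientAddGroup.induction_on with
  | H x =>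
    have h1 := AddCircle.norm_eq q (x := x)
    have h2 := AddCircle.norm_le_half_period q (x := (x : AddCircle q)) hq.ne'
    rw [abs_of_pos hq] at h2
    refine ⟨x - round (q⁻¹ * x) * q, ?_, h1 ▸ h2, h1⟩
    rw [AddCircle.coe_sub, sub_eq_self, AddCircle.coe_eq_zero_iff]
    exact ⟨round (q⁻¹ * x), by simp⟩

lemma nrm {q : ℝ} (hq : 0 < q) {v : ℝ} (h : |v| ≤ q / 2) : ‖(v : AddCircle q)‖ = |v| :=
  (AddCircle.norm_coe_eq_abs_iff q hq.ne').mpr (by rwa [abs_of_pos hq])

lemma evade {q t : ℝ} (hq : 0 < q) (ht : 0 < t) (h : 4 * t ≤ q) (r c : AddCircle q) :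
    ∃ r', dist r r' ≤ t ∧ (t ≤ dist r c → 2 * t ≤ dist r' c) := by
  obtain ⟨v, h1, h2, h3⟩ := lift hq (r - c)
  have key : ∀ w : ℝ, |w| = 2 * t → |v - w| ≤ t →
      ∃ r', dist r r' ≤ t ∧ (t ≤ dist r c → 2 * t ≤ dist r' c) := by
    intro w hw hvw
    refine ⟨c + w, ?_, fun _ => ?_⟩
    · rw [dist_eq_norm, ← sub_sub, ← h1, ← AddCircle.coe_sub, nrm hq (by linarith)]
      exact hvw
    · rw [dist_eq_norm, add_sub_cancel_left, nrm hq (by linarith), hw]
  rw [← dist_eq_norm] at h3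
  by_cases a : t ≤ |v| ∧ |v| ≤ 2 * t
  · rcases abs_cases v with ⟨e, _⟩ | ⟨e, _⟩
    · exact key (2 * t) (abs_of_pos (by linarith)) (abs_le.mpr ⟨by linarith [a.1], by linarith [a.2]⟩)
    · exact key (-(2 * t)) (by rw [abs_neg, abs_of_pos (by linarith)])
        (abs_le.mpr ⟨by linarith [a.2], by linarith [a.1]⟩)
  · refine ⟨r, by simpa using ht.le, fun h4 => ?_⟩
    rw [h3] at h4 ⊢
    by_contra hh
    exact a ⟨h4, (not_le.mp hh).le⟩

noncomputable def p (i : ℕ) : ℝ := (1 / 2) ^ i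

lemma p_pos (i : ℕ) : 0 < p i := by unfold p; positivity

instance (i : ℕ) : Fact (0 < p i) := ⟨p_pos i⟩

lemma p_anti {i j : ℕ} (h : i ≤ j) : p j ≤ p i :=
  pow_le_pow_of_le_one (by norm_num) (by norm_num) h

lemma bd (i : ℕ) (z : AddCircle (p i)) : ‖z‖ ≤ p i / 2 := by
  obtain ⟨v, -, h2, h3⟩ := lift (p_pos i) z
  exact h3 ▸ h2

abbrev X : Type := lp (fun i => AddCircle (p i)) ∞

noncomputable def mk (f : ∀ i, AddCircle (p i)) : X :=
  ⟨f, memℓp_infty ⟨p 0 / 2, by
    rintro _ ⟨i, rfl⟩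
    exact (bd i _).trans (by linarith [p_anti (Nat.zero_le i)])⟩⟩

lemma mk_apply (f : ∀ i, AddCircle (p i)) (i : ℕ) : mk f i = f i := rfl

lemma dist_le {x y : X} {C : ℝ} (hC : 0 ≤ C) (h : ∀ i, dist (x i) (y i) ≤ C) : dist x y ≤ C := by
  rw [dist_eq_norm]
  exact lp.norm_le_of_forall_le hC (fun i => by simpa [dist_eq_norm] using h i)

lemma le_dist (x y : X) (i : ℕ) : dist (x i) (y i) ≤ dist x y := by
  rw [dist_eq_norm, dist_eq_norm]
  simpa using lp.norm_apply_le_norm ENNReal.top_ne_zero (x - y) i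

lemma cont : Continuous mk := by
  rw [continuous_iff_continuousAt]
  intro g
  rw [ContinuousAt, Metric.tendsto_nhds]
  intro ε hε
  obtain ⟨N, hN⟩ := exists_pow_lt_of_lt_one hε (show (1 / 2 : ℝ) < 1 by norm_num)
  have h1 : ∀ᶠ f : ∀ i, AddCircle (p i) in nhds g, ∀ i ∈ Finset.range N, dist (f i) (g i) < ε / 2 :=
    (Filter.eventually_all_finset _).mpr (fun i _ =>
      Metric.tendsto_nhds.mp ((continuous_apply i).tendsto g) _ (by linarith))
  refine h1.mono (fun f hf => lt_of_le_of_lt (dist_le (C := ε / 2) (by linarith) (fun i => ?_))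
    (by linarith))
  by_cases h : i < N
  · exact (hf i (Finset.mem_range.mpr h)).le
  · have h2 : p i ≤ p N := p_anti (not_lt.mp h)
    have h3 : p N < ε := hN
    rw [dist_eq_norm]
    exact (bd i _).trans (by linarith)

lemma compact : CompactSpace X := by
  refine ⟨?_⟩
  have : range mk = univ := range_eq_univ.mpr (fun x => ⟨x, rfl⟩)
  rw [← this]
  exact isCompact_range cont

lemma geo : IsGeodesicSpace X := by
  intro x y
  choose v h1 h2 h3 using fun i => lift (p_pos i) (y i - x i)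
  let γ : ℝ → X := fun t => mk (fun i => x i + ((t * v i : ℝ) : AddCircle (p i)))
  have h0 : γ 0 = x := by ext i; simp [γ, mk_apply]
  have h4 : γ 1 = y := by ext i; simp [γ, mk_apply, h1]
  have hd : ∀ s ∈ Icc (0 : ℝ) 1, ∀ t ∈ Icc (0 : ℝ) 1, ∀ i,
      dist (γ s i) (γ t i) = |s - t| * dist (x i) (y i) := by
    intro s hs t ht i
    have h5 : |s - t| ≤ 1 := abs_le.mpr ⟨by linarith [hs.1, ht.2], by linarith [hs.2, ht.1]⟩
    simp only [γ, mk_apply]
    rw [dist_add_left, dist_eq_norm, ← AddCircle.coe_sub, ← sub_mul, dist_comm, dist_eq_norm, h3,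
      nrm (p_pos i), abs_mul]
    rw [abs_mul]
    exact (mul_le_of_le_one_left (abs_nonneg _) h5).trans (h2 i)
  refine ⟨γ, h0, h4, fun s hs t ht => le_antisymm (dist_le (by positivity) (fun i => ?_)) ?_⟩
  · rw [hd s hs t ht]
    exact mul_le_mul_of_nonneg_left (le_dist x y i) (abs_nonneg _)
  · rcases (abs_nonneg (s - t)).eq_or_lt with e | e
    · rw [← e, zero_mul]; exact dist_nonneg
    · rw [← le_div_iff₀' e]
      refine dist_le (by positivity) (fun i => ?_)
      rw [le_div_iff₀' e, ← hd s hs t ht]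
      exact le_dist _ _ i

lemma robber (k : ℕ) : RobberWins X k := by
  have ht : 0 < p k / 4 := by linarith [p_pos k]
  choose ev e1 e2 using fun (i : ℕ) (h : i < k) =>
    evade (p_pos i) ht (by linarith [p_anti h.le])
  let σ : ℕ → (ℕ → Fin k → X) → X := fun n c => Nat.rec 0 (fun m r =>
    mk (fun i => if h : i < k then ev i h (r i) (c m ⟨i, h⟩ i) else r i)) n
  have hs : ∀ n c i, σ (n + 1) c i =
      if h : i < k then ev i h (σ n c i) (c n ⟨i, h⟩ i) else σ n c i := fun _ _ _ => rfl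
  refine ⟨fun _ => mk (fun i => ((p i / 2 : ℝ) : AddCircle (p i))), fun _ => p k / 4, σ,
    fun _ => ht, ?_, ?_, fun c h0 hc => ⟨fun n => dist_le ht.le (fun i => ?_), p k / 4, ht, ?_⟩⟩
  · intro h
    exact ht.ne' ((summable_const_iff _).mp h)
  · intro n
    induction n with
    | zero => intros; rfl
    | succ n ih =>
      intro c c' h
      ext i
      rw [hs, hs, ih c c' (fun m hm => h m (by omega)), h n (by omega)]
  · rw [hs]
    split_ifs with h
    · exact e1 _ _ _ _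
    · simpa using ht.le
  · intro n i
    refine le_trans ?_ (le_dist _ _ i.val)
    induction n with
    | zero =>
      have : σ 0 c = 0 := rfl
      have h1 := p_pos i
      rw [this, h0, mk_apply, dist_comm, dist_eq_norm, lp.coeFn_zero, Pi.zero_apply, sub_zero,
        nrm h1 (by rw [abs_of_pos (by linarith)]), abs_of_pos (by linarith)]
      linarith [p_anti i.2.le]
    | succ n ih =>
      have h1 := e2 i.val i.2 _ _ ih
      have h2 := (le_dist _ _ i.val).trans (hc n i)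
      have h3 := dist_triangle_right (ev i.val i.2 (σ n c i) (c n i i)) (c n i i) (c (n + 1) i i)
      rw [hs, dif_pos i.2]
      linarith

theorem result : ∃ (Y : Type) (_ : MetricSpace Y), Nonempty Y ∧ CompactSpace Y ∧
    IsGeodesicSpace Y ∧ (∀ x y : Y, ∃ i : Y ≃ᵢ Y, i x = y) ∧ ∀ k, RobberWins Y k :=
  ⟨X, inferInstance, ⟨0⟩, compact, geo,
    fun x y => ⟨IsometryEquiv.addLeft (y - x), by simp⟩, robber⟩

end Pool.Agent.Results.MP_cb1e0a_co.Torus
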